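import Pool.Agent.N139.WS.Stm

/-!
# Project WS: assembly
-/

set_option autoImplicit false

namespace Pool.Agent.N139.WS

open Filter Topology

theorem proj_zero {B : Type} [CStarAlgebra B] (q : B) (h1 : star q = q) (h2 : q * q = q)
    (h3 : ‖q‖ < 1) : q = 0 := by
  have h4 : ‖q‖ = ‖q‖ * ‖q‖ := by
    conv_lhs => rw [← h2]
    nth_rewrite 1 [← h1]
    exact CStarRing.norm_star_mul_self
  have h5 : ‖q‖ * (1 - ‖q‖) = 0 := by linarith
  rcases mul_eq_zero.1 h5 with h | h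
  · exact norm_eq_zero.1 h
  · linarith

theorem sym_eq {B : Type} [CStarAlgebra B] (w : B) (h1 : star w = w) (h2 : w * w = 1)
    (h3 : ‖1 - w‖ < 1) : w = 1 := by
  have h := proj_zero ((1 / 2 : ℂ) • (1 - w)) ?_ ?_ ?_
  · have h4 : (1 : B) - w = 0 := by
      rcases smul_eq_zero.1 h with h | h
      · norm_num at h
      · exact h
    exact (sub_eq_zero.1 h4).symm
  · rw [star_smul, star_sub, star_one, h1]
    congr 1
    simp
  · rw [smul_mul_smul_comm, sub_mul, mul_sub, mul_sub, h2, one_mul, mul_one, one_mul]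
    rw [show (1 : B) - w - (w - 1) = (2 : ℂ) • (1 - w) by rw [two_smul]; abel, smul_smul]
    norm_num
  · rw [norm_smul]
    have : ‖(1 / 2 : ℂ)‖ = 1 / 2 := by simp
    rw [this]
    linarith

theorem cc_mul : cc * cc = 1 := by
  ext1
  · simp [cc, WG.mul_x, WG.one_x]
  · simp [cc, WG.mul_y, WG.one_y]
  · simp [cc, WG.mul_z, WG.one_z]
  · simp [cc, WG.mul_b, WG.one_b]
  · rw [WG.mul_e, WG.one_e]
    exact CharTwo.add_self_eq_zero _

theorem zz_mul (i : ℕ) : zz i * zz i = 1 := by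
  ext1
  · simp [zz, WG.mul_x, WG.one_x]
  · simp [zz, WG.mul_y, WG.one_y]
  · rw [WG.mul_z, WG.one_z]
    simp only [zz, mul_zero, zero_smul, add_zero]
    rw [← Finsupp.single_add]
    rw [show (1 : ZMod 2) + 1 = 0 from by decide, Finsupp.single_zero]
  · simp [zz, WG.mul_b, WG.one_b]
  · simp [zz, WG.mul_e, WG.one_e]

theorem not_mat (h1 : S_REP) (h2 : S_NOEX) : ¬ MatriciallyStable WG := by
  intro h
  obtain ⟨k, u, hu, hk⟩ := h1
  obtain ⟨v, hv, hc⟩ := h k u hu
  have e1 := (hc 1).eventually (gt_mem_nhds (zero_lt_one' ℝ))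
  have e2 := (hc cc).eventually (gt_mem_nhds (zero_lt_one' ℝ))
  have e3 := (hc (zz 0)).eventually (gt_mem_nhds (zero_lt_one' ℝ))
  obtain ⟨n, n1, n2, n3⟩ := (e1.and (e2.and e3)).exists
  obtain ⟨k0, k1, k2, k3⟩ := hk n
  have s : ∀ g : WG, g * g = 1 → star (v n g) = v n g := by
    intro g hg
    rw [← (hv n).st, inv_eq_of_mul_eq_one_right hg]
  have v1 : v n 1 = 1 := by
    have := proj_zero (1 - v n 1) ?_ ?_ ?_
    · exact (sub_eq_zero.1 this).symm
    · rw [star_sub, star_one, s 1 (one_mul 1)]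
    · rw [sub_mul, mul_sub, mul_sub, ← (hv n).mul]
      simp
    · rw [← k1]; exact n1
  have v2 : v n cc = 1 := by
    refine sym_eq _ (s cc cc_mul) ?_ ?_
    · rw [← (hv n).mul, cc_mul, v1]
    · rw [← k2]; exact n2
  have v3 : v n (zz 0) = -1 := by
    have := sym_eq (-v n (zz 0)) ?_ ?_ ?_
    · exact neg_eq_iff_eq_neg.1 this
    · rw [star_neg, s _ (zz_mul 0)]
    · exact (neg_mul_neg (v n (zz 0)) (v n (zz 0))).trans (by rw [← (hv n).mul, zz_mul, v1])
    · rw [sub_neg_eq_add, ← norm_neg, neg_add, ← sub_eq_add_neg, ← k3]; exact n3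
  exact h2 (k n) (v n) k0 (hv n) v1 v2 v3

/-- the final statement -/
theorem final_of (hL : S_LIM) (hG : S_GRP) (hR : S_REP) (hN : S_NOEX) :
    Countable WG ∧ HH.index = 2 ∧ WeaklyCStarStable HH ∧ MatriciallyStable HH ∧
      ¬ MatriciallyStable WG ∧ ¬ WeaklyCStarStable WG := by
  obtain ⟨g1, g2, K, r, h1, h2, h3, h4⟩ := hG
  have hw : WeaklyCStarStable HH := hL HH K r h1 h2 h3 h4
  have hn := not_mat hR hN
  exact ⟨g1, g2, hw, hw.mat, hn, fun h => hn h.mat⟩

end Pool.Agent.N139.WS
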