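import Mathlib

/-!
# Project WS: definitions

Weakly C*-stable groups, matricially stable groups, and a locally finite group `WG` of exponent `4`
with a subgroup `HH` of index two.
-/

set_option autoImplicit false

namespace Pool.Agent.N139.WS

open Filter Topology

/-- An asymptotic `*`-representation of `G` by elements of C*-algebras `B n`: a bounded sequence of
maps which is asymptotically multiplicative and asymptotically `*`-preserving. -/
structure Asy {G : Type} [Group G] {B : ℕ → Type} [∀ n, NonUnitalCStarAlgebra (B n)]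
    (u : ∀ n, G → B n) : Prop where
  bdd : ∀ g : G, ∃ C : ℝ, ∀ n, ‖u n g‖ ≤ C
  mul : ∀ g h : G, Tendsto (fun n => ‖u n (g * h) - u n g * u n h‖) atTop (𝓝 0)
  st : ∀ g : G, Tendsto (fun n => ‖u n g⁻¹ - star (u n g)‖) atTop (𝓝 0)

/-- A `*`-representation of `G` by elements of a C*-algebra `B` (unitary elements of a corner of
`B`): a multiplicative and `*`-preserving map. -/
structure Exa {G : Type} [Group G] {B : Type} [NonUnitalCStarAlgebra B] (v : G → B) : Prop where
  mul : ∀ g h : G, v (g * h) = v g * v h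
  st : ∀ g : G, v g⁻¹ = star (v g)

/-- `G` is weakly C*-stable. -/
def WeaklyCStarStable (G : Type) [Group G] : Prop :=
  ∀ (B : ℕ → Type) [∀ n, NonUnitalCStarAlgebra (B n)] (u : ∀ n, G → B n), Asy u →
    ∃ v : ∀ n, G → B n, (∀ n, Exa (v n)) ∧
      ∀ g : G, Tendsto (fun n => ‖u n g - v n g‖) atTop (𝓝 0)

/-- the C*-algebra of complex `k × k` matrices -/
abbrev MM (k : ℕ) : Type := EuclideanSpace ℂ (Fin k) →L[ℂ] EuclideanSpace ℂ (Fin k)

/-- `G` is matricially stable. -/
def MatriciallyStable (G : Type) [Group G] : Prop :=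
  ∀ (k : ℕ → ℕ) (u : ∀ n, G → MM (k n)), Asy u →
    ∃ v : ∀ n, G → MM (k n), (∀ n, Exa (v n)) ∧
      ∀ g : G, Tendsto (fun n => ‖u n g - v n g‖) atTop (𝓝 0)

theorem WeaklyCStarStable.mat {G : Type} [Group G] (h : WeaklyCStarStable G) :
    MatriciallyStable G := fun k u hu => h (fun n => MM (k n)) u hu

/-! ### the group -/

/-- finitely supported sequences of bits -/
abbrev VV : Type := ℕ →₀ ZMod 2

/-- sum of the bits -/
noncomputable def sm : VV →+ ZMod 2 := Finsupp.liftAddHom fun _ => AddMonoidHom.id (ZMod 2)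

/-- `T b = b + (sum of the bits of b) e₀` -/
noncomputable def TT : VV →+ VV := AddMonoidHom.id VV + (Finsupp.singleAddHom 0).comp sm

theorem sm_single (i : ℕ) (c : ZMod 2) : sm (Finsupp.single i c) = c := by
  simp [sm]

theorem TT_apply (b : VV) : TT b = b + Finsupp.single 0 (sm b) := rfl

theorem sm_TT (b : VV) : sm (TT b) = 0 := by
  rw [TT_apply, map_add, sm_single]
  exact CharTwo.add_self_eq_zero _

/-- the group: Heisenberg elements `(x, y, z)`, further elements `b` and a last bit `e` -/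
@[ext] structure WG : Type where
  x : VV
  y : VV
  z : VV
  b : VV
  e : ZMod 2

noncomputable instance : Mul WG :=
  ⟨fun g h => ⟨g.x + h.x, g.y + h.y, g.z + h.z + g.x * h.y + g.e • TT h.b, g.b + h.b, g.e + h.e⟩⟩
noncomputable instance : One WG := ⟨⟨0, 0, 0, 0, 0⟩⟩
noncomputable instance : Inv WG :=
  ⟨fun g => ⟨-g.x, -g.y, -g.z + g.x * g.y + g.e • TT g.b, -g.b, -g.e⟩⟩

theorem WG.mul_x (g h : WG) : (g * h).x = g.x + h.x := rfl
theorem WG.mul_y (g h : WG) : (g * h).y = g.y + h.y := rfl
theorem WG.mul_z (g h : WG) : (g * h).z = g.z + h.z + g.x * h.y + g.e • TT h.b := rfl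
theorem WG.mul_b (g h : WG) : (g * h).b = g.b + h.b := rfl
theorem WG.mul_e (g h : WG) : (g * h).e = g.e + h.e := rfl
theorem WG.one_x : (1 : WG).x = 0 := rfl
theorem WG.one_y : (1 : WG).y = 0 := rfl
theorem WG.one_z : (1 : WG).z = 0 := rfl
theorem WG.one_b : (1 : WG).b = 0 := rfl
theorem WG.one_e : (1 : WG).e = 0 := rfl
theorem WG.inv_x (g : WG) : (g⁻¹).x = -g.x := rfl
theorem WG.inv_y (g : WG) : (g⁻¹).y = -g.y := rfl
theorem WG.inv_z (g : WG) : (g⁻¹).z = -g.z + g.x * g.y + g.e • TT g.b := rfl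
theorem WG.inv_b (g : WG) : (g⁻¹).b = -g.b := rfl
theorem WG.inv_e (g : WG) : (g⁻¹).e = -g.e := rfl

noncomputable instance : Group WG :=
  Group.ofLeftAxioms
    (by
      intro g h k
      ext1
      · simp only [WG.mul_x]; abel
      · simp only [WG.mul_y]; abel
      · simp only [WG.mul_x, WG.mul_y, WG.mul_z, WG.mul_b, WG.mul_e, map_add, add_smul, smul_add,
          add_mul, mul_add]
        abel
      · simp only [WG.mul_b]; abel
      · simp only [WG.mul_e]; ring)
    (by
      intro g
      ext1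
      · simp [WG.mul_x, WG.one_x]
      · simp [WG.mul_y, WG.one_y]
      · simp [WG.mul_z, WG.one_x, WG.one_z, WG.one_e]
      · simp [WG.mul_b, WG.one_b]
      · simp [WG.mul_e, WG.one_e])
    (by
      intro g
      ext1
      · simp [WG.mul_x, WG.one_x, WG.inv_x]
      · simp [WG.mul_y, WG.one_y, WG.inv_y]
      · ext i
        simp only [WG.mul_z, WG.one_z, WG.inv_z, WG.inv_x, WG.inv_e, neg_smul, Finsupp.add_apply,
          Finsupp.neg_apply, Finsupp.mul_apply, Finsupp.zero_apply]
        ring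
      · simp [WG.mul_b, WG.one_b, WG.inv_b]
      · show -g.e + g.e = 0
        ring)

/-- the last bit -/
noncomputable def eh : WG →* Multiplicative (ZMod 2) where
  toFun g := Multiplicative.ofAdd g.e
  map_one' := rfl
  map_mul' _ _ := rfl

/-- the subgroup of index two -/
noncomputable def HH : Subgroup WG := eh.ker

/-- `x_i` -/
noncomputable def xx (i : ℕ) : WG := ⟨Finsupp.single i 1, 0, 0, 0, 0⟩
/-- `y_i` -/
noncomputable def yy (i : ℕ) : WG := ⟨0, Finsupp.single i 1, 0, 0, 0⟩
/-- the central element `z_i` -/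
noncomputable def zz (i : ℕ) : WG := ⟨0, 0, Finsupp.single i 1, 0, 0⟩
/-- `b_i` -/
noncomputable def bb (i : ℕ) : WG := ⟨0, 0, 0, Finsupp.single i 1, 0⟩
/-- the involution `c` -/
noncomputable def cc : WG := ⟨0, 0, 0, 0, 1⟩

end Pool.Agent.N139.WS
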