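import Pool.Agent.N139.WS.Defs

/-!
# Project WS: statements of the steps
-/

set_option autoImplicit false

namespace Pool.Agent.N139.WS

open Filter Topology

/-- PRJ: a self-adjoint element which is almost idempotent is near a projection. -/
def S_PRJ : Prop :=
  ∀ (B : Type) [NonUnitalCStarAlgebra B] (x : B) (δ : ℝ), IsSelfAdjoint x → δ ≤ 1 / 8 →
    ‖x * x - x‖ ≤ δ → ∃ p : B, IsSelfAdjoint p ∧ p * p = p ∧ ‖p - x‖ ≤ 2 * δ

/-- NWT: Newton iteration (Johnson). -/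
def S_NWT : Prop :=
  ∀ (F : Type) [Group F] [Finite F] (B : Type) [NonUnitalCStarAlgebra B] (p : B) (u : F → B)
    (δ : ℝ), IsSelfAdjoint p → p * p = p → u 1 = p → (∀ a, p * u a = u a) →
    (∀ a, u a * p = u a) → (∀ a, u a⁻¹ = star (u a)) → (∀ a, ‖u a‖ ≤ 3 / 2) → δ ≤ 1 / 100 →
    (∀ a b, ‖u (a * b) - u a * u b‖ ≤ δ) →
    ∃ v : F → B, Exa v ∧ ∀ a, ‖u a - v a‖ ≤ 4 * δ

/-- FINW: finite groups are weakly C*-stable. -/
def S_FINW : Prop := ∀ (F : Type) [Group F] [Finite F], WeaklyCStarStable F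

/-- LIM: unions of chains of finite subgroups with retractions are weakly C*-stable. -/
def S_LIM : Prop :=
  ∀ (G : Type) [Group G] (K : ℕ → Subgroup G) (r : ∀ n, G →* K n), (∀ n, Finite (K n)) →
    (∀ n, K n ≤ K (n + 1)) → (∀ g : G, ∃ n, g ∈ K n) → (∀ (n : ℕ) (g : K n), r n g = g) →
    WeaklyCStarStable G

/-- GRP: facts about the group. -/
def S_GRP : Prop :=
  Countable WG ∧ HH.index = 2 ∧
    ∃ (K : ℕ → Subgroup HH) (r : ∀ n, HH →* K n), (∀ n, Finite (K n)) ∧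
      (∀ n, K n ≤ K (n + 1)) ∧ (∀ g : HH, ∃ n, g ∈ K n) ∧ ∀ (n : ℕ) (g : K n), r n g = g

/-- REP: an asymptotic representation. -/
def S_REP : Prop :=
  ∃ (k : ℕ → ℕ) (u : ∀ n, WG → MM (k n)), Asy u ∧ ∀ n, 0 < k n ∧ u n 1 = 1 ∧ u n cc = 1 ∧
    u n (zz 0) = -1

/-- NOEX: there is no finite-dimensional representation with these values. -/
def S_NOEX : Prop :=
  ∀ (k : ℕ) (v : WG → MM k), 0 < k → Exa v → v 1 = 1 → v cc = 1 → v (zz 0) = -1 → False

end Pool.Agent.N139.WS
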